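import Pool.Agent.helper26.EC.SpecS

set_option autoImplicit false

namespace Pool.Agent.EC

open Finset
open Pool.Agent.RLS (SS Dat Good)

private theorem NWU_log {x : ℝ} (hx : 1 ≤ x) : Real.log x ≤ (x - x⁻¹) / 2 := by
  have h0 : 0 < x := by linarith
  rw [← Real.sinh_log h0]
  exact Real.self_le_sinh_iff.mpr (Real.log_nonneg hx)

private theorem NWU_div (a b : ℕ) (hb : 0 < b) : (a : ℝ) / b ≤ ((a / b : ℕ) : ℝ) + 1 := by
  have hb' : (0 : ℝ) < b := by exact_mod_cast hb
  rw [div_le_iff₀ hb']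
  have h1 : a < (a / b + 1) * b := by
    have := Nat.lt_mul_div_succ a hb
    rw [Nat.mul_comm] at this
    exact this
  have h2 : (a : ℝ) < ((a / b + 1 : ℕ) : ℝ) * b := by exact_mod_cast h1
  push_cast at h2
  exact h2.le

private theorem NWU_lup (r : ℕ) (hr : 1 ≤ r) : 10 ^ 12 * Real.log (((r : ℝ) + 1) / r) ≤ (lup r : ℝ) := by
  have hr' : (1 : ℝ) ≤ r := by exact_mod_cast hr
  have h0 : (0 : ℝ) < r := by linarith
  have h1 : (1 : ℝ) ≤ ((r : ℝ) + 1) / r := by
    rw [le_div_iff₀ h0]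
    linarith
  have h2 := NWU_log h1
  have h3 : (((r : ℝ) + 1) / r - (((r : ℝ) + 1) / r)⁻¹) / 2 = (2 * r + 1) / (2 * r * (r + 1)) := by
    field_simp
    ring
  rw [h3] at h2
  have h4 := NWU_div (10 ^ 12 * (2 * r + 1)) (2 * r * (r + 1)) (by positivity)
  have h5 : (lup r : ℝ) = ((10 ^ 12 * (2 * r + 1) / (2 * r * (r + 1)) : ℕ) : ℝ) + 1 := by
    unfold lup
    push_cast
    ring
  rw [h5]
  refine le_trans ?_ h4
  have h6 : ((10 ^ 12 * (2 * r + 1) : ℕ) : ℝ) / ((2 * r * (r + 1) : ℕ) : ℝ) =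
      10 ^ 12 * ((2 * r + 1) / (2 * r * (r + 1))) := by
    push_cast
    ring
  rw [h6]
  exact mul_le_mul_of_nonneg_left h2 (by positivity)

/-- the terms -/
private noncomputable def NWU_T (F : ℝ → ℝ) (i : ℕ) : ℝ :=
  16 / 3 * F ((i : ℝ) / 300) * Real.log ((1600 - (i : ℝ)) / (1599 - i))

private theorem NWU_logT (i : ℕ) (hi : i < 1599) :
    10 ^ 12 * Real.log ((1600 - (i : ℝ)) / (1599 - i)) ≤ (lup (1599 - i) : ℝ) := by
  have h := NWU_lup (1599 - i) (by omega)
  have h1 : ((1599 - i : ℕ) : ℝ) = 1599 - i := by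
    rw [Nat.cast_sub hi.le]
    norm_num
  rw [h1] at h
  have h2 : (1599 - (i : ℝ) + 1) = 1600 - i := by ring
  rw [h2] at h
  exact h

private theorem NWU_log0 (i : ℕ) (hi : i < 1599) : 0 ≤ Real.log ((1600 - (i : ℝ)) / (1599 - i)) := by
  have hi' : (i : ℝ) < 1599 := by exact_mod_cast hi
  apply Real.log_nonneg
  rw [le_div_iff₀ (by linarith)]
  linarith

private theorem NWU_goW0 {u A : ℝ} {F f : ℝ → ℝ} (hD : Dat u A F f) :
    ∀ n i acc : ℕ, 600 ≤ i → i + n = 900 →
      10 ^ 12 * ∑ j ∈ Ico 600 i, NWU_T F j ≤ A * (acc : ℝ) →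
      10 ^ 12 * ∑ j ∈ Ico 600 900, NWU_T F j ≤ A * (goW0 n i acc : ℝ) := by
  intro n
  induction n with
  | zero =>
    intro i acc hi hn h
    have : i = 900 := by omega
    subst this
    exact h
  | succ n ih =>
    intro i acc hi hn h
    have hA : 0 < A := by linarith [hD.A3]
    show _ ≤ A * (goW0 n (i + 1) (acc + 1600 * lup (1599 - i) / i + 1) : ℝ)
    refine ih (i + 1) _ (by omega) (by omega) ?_
    rw [Finset.sum_Ico_succ_top hi, mul_add]
    have hi0 : (600 : ℝ) ≤ i := by exact_mod_cast hi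
    have hi9 : (i : ℝ) ≤ 900 := by exact_mod_cast (by omega : i ≤ 900)
    have h1 : F ((i : ℝ) / 300) = A / ((i : ℝ) / 300) := hD.Fs _ (by linarith) (by linarith)
    have h2 := NWU_div (1600 * lup (1599 - i)) i (by omega)
    have h3 : 10 ^ 12 * NWU_T F i ≤ A * ((1600 * lup (1599 - i) : ℕ) / (i : ℝ)) := by
      unfold NWU_T
      rw [h1]
      have h4 := NWU_logT i (by omega)
      have h5 : 10 ^ 12 * (16 / 3 * (A / ((i : ℝ) / 300)) * Real.log ((1600 - (i : ℝ)) / (1599 - i))) =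
          A * (1600 * (10 ^ 12 * Real.log ((1600 - (i : ℝ)) / (1599 - i))) / i) := by
        field_simp
        ring
      rw [h5]
      refine mul_le_mul_of_nonneg_left ?_ hA.le
      push_cast
      gcongr
    push_cast
    calc 10 ^ 12 * ∑ j ∈ Ico 600 i, NWU_T F j + 10 ^ 12 * NWU_T F i
        ≤ A * (acc : ℝ) + A * ((1600 * lup (1599 - i) : ℕ) / (i : ℝ)) := add_le_add h h3
      _ ≤ A * (acc : ℝ) + A * (((1600 * lup (1599 - i) / i : ℕ) : ℝ) + 1) := by
          gcongr
      _ = A * ((acc : ℝ) + ((1600 * lup (1599 - i) / i : ℕ) : ℝ) + 1) := by ring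

private theorem NWU_int {u A : ℝ} {F f : ℝ → ℝ} (hu : 6 ≤ u) (hD : Dat u A F f) (a b : ℝ) (ha : 3 ≤ a) (hab : a ≤ b)
    (hb : b ≤ 5) : b * F b - a * F a ≤ A * Real.log (b - 2) * Real.log ((b - 1) / (a - 1)) := by
  rw [hD.Fi a b ha hab (by linarith)]
  have hA : 0 < A := by linarith [hD.A3]
  have hlog : 0 ≤ Real.log (b - 2) := Real.log_nonneg (by linarith)
  have h1 : IntervalIntegrable (fun s => f (s - 1)) MeasureTheory.volume a b := by
    apply MonotoneOn.intervalIntegrable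
    rw [Set.uIcc_of_le hab]
    intro x hx y hy hxy
    exact hD.fm ⟨by linarith [hx.1], by linarith [hx.2]⟩ ⟨by linarith [hy.1], by linarith [hy.2]⟩ (by linarith)
  have h2 : IntervalIntegrable (fun s => A * Real.log (b - 2) * (s - 1)⁻¹) MeasureTheory.volume a b := by
    apply ContinuousOn.intervalIntegrable
    rw [Set.uIcc_of_le hab]
    apply ContinuousOn.mul continuousOn_const
    apply ContinuousOn.inv₀ (by fun_prop)
    intro x hx
    have := hx.1
    exact ne_of_gt (by linarith)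
  have h3 : ∫ s in a..b, A * Real.log (b - 2) * (s - 1)⁻¹ = A * Real.log (b - 2) * Real.log ((b - 1) / (a - 1)) := by
    rw [intervalIntegral.integral_const_mul]
    congr 1
    rw [intervalIntegral.integral_comp_sub_right (fun x => x⁻¹) 1]
    exact integral_inv_of_pos (by linarith) (by linarith)
  rw [← h3]
  apply intervalIntegral.integral_mono_on hab h1 h2
  intro s hs
  have hs1 := hs.1
  have hs2 := hs.2
  rw [hD.fs (s - 1) (by linarith) (by linarith)]
  have h4 : Real.log (s - 1 - 1) ≤ Real.log (b - 2) := Real.log_le_log (by linarith) (by linarith)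
  have h5 : A * Real.log (s - 1 - 1) / (s - 1) = A * Real.log (s - 1 - 1) * (s - 1)⁻¹ := by rw [div_eq_mul_inv]
  rw [h5]
  have h6 : 0 ≤ (s - 1)⁻¹ := by
    apply inv_nonneg.mpr
    linarith
  gcongr

private theorem NWU_goW {u A : ℝ} {F f : ℝ → ℝ} (hu : 6 ≤ u) (hD : Dat u A F f) :
    ∀ n i Lu G acc : ℕ, 900 ≤ i → i + n = 1300 →
      10 ^ 12 * Real.log (((i : ℝ) - 599) / 300) ≤ (Lu : ℝ) →
      10 ^ 12 * ((i : ℝ) / 300 * F ((i : ℝ) / 300)) ≤ A * (G : ℝ) →
      10 ^ 12 * ∑ j ∈ Ico 600 i, NWU_T F j ≤ A * (acc : ℝ) →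
      10 ^ 12 * ∑ j ∈ Ico 600 1300, NWU_T F j ≤ A * (goW n i Lu G acc : ℝ) := by
  intro n
  induction n with
  | zero =>
    intro i Lu G acc hi hn _ _ h
    have : i = 1300 := by omega
    subst this
    exact h
  | succ n ih =>
    intro i Lu G acc hi hn hL hG h
    have hA : 0 < A := by linarith [hD.A3]
    have hi0 : (900 : ℝ) ≤ i := by exact_mod_cast hi
    have hi9 : (i : ℝ) + 1 ≤ 1300 := by exact_mod_cast (by omega : i + 1 ≤ 1300)
    show _ ≤ A * (goW n (i + 1) (Lu + lup (i - 599)) (G + Lu * lup (i - 300) / 10 ^ 12 + 1)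
      (acc + 1600 * G * lup (1599 - i) / (i * 10 ^ 12) + 1) : ℝ)
    refine ih (i + 1) _ _ _ (by omega) (by omega) ?_ ?_ ?_
    · have h1 := NWU_lup (i - 599) (by omega)
      have h2 : ((i - 599 : ℕ) : ℝ) = i - 599 := by
        rw [Nat.cast_sub (by omega)]
        norm_num
      rw [h2] at h1
      have h3 : Real.log ((((i + 1 : ℕ) : ℝ) - 599) / 300) =
          Real.log (((i : ℝ) - 599) / 300) + Real.log (((i : ℝ) - 599 + 1) / ((i : ℝ) - 599)) := by
        rw [← Real.log_mul]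
        · congr 1
          have : (i : ℝ) - 599 ≠ 0 := by linarith
          push_cast
          field_simp
          ring
        · have : (0 : ℝ) < (i : ℝ) - 599 := by linarith
          positivity
        · have : (0 : ℝ) < (i : ℝ) - 599 := by linarith
          positivity
      rw [h3, mul_add]
      push_cast
      linarith
    · have h1 := NWU_int hu hD ((i : ℝ) / 300) (((i : ℝ) + 1) / 300) (by linarith) (by linarith) (by linarith)
      have h2 : Real.log (((i : ℝ) + 1) / 300 - 2) = Real.log (((i : ℝ) - 599) / 300) := by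
        congr 1
        ring
      have h3 : (((i : ℝ) + 1) / 300 - 1) / ((i : ℝ) / 300 - 1) = ((i : ℝ) - 300 + 1) / ((i : ℝ) - 300) := by
        have h4 : (i : ℝ) - 300 ≠ 0 := by linarith
        have h5 : (i : ℝ) / 300 - 1 ≠ 0 := by
          have : (0 : ℝ) < (i : ℝ) / 300 - 1 := by linarith
          exact this.ne'
        rw [div_eq_div_iff h5 h4]
        ring
      rw [h2, h3] at h1
      have h6 := NWU_lup (i - 300) (by omega)
      have h7 : ((i - 300 : ℕ) : ℝ) = i - 300 := by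
        rw [Nat.cast_sub (by omega)]
        norm_num
      rw [h7] at h6
      have h8 := NWU_div (Lu * lup (i - 300)) (10 ^ 12) (by positivity)
      have h9 : 10 ^ 12 * (A * Real.log (((i : ℝ) - 599) / 300) *
          Real.log (((i : ℝ) - 300 + 1) / ((i : ℝ) - 300))) ≤
          A * (((Lu * lup (i - 300) : ℕ) : ℝ) / ((10 ^ 12 : ℕ) : ℝ)) := by
        have h10 : 0 ≤ Real.log (((i : ℝ) - 599) / 300) := Real.log_nonneg (by linarith)
        have h11 : 0 ≤ Real.log (((i : ℝ) - 300 + 1) / ((i : ℝ) - 300)) := by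
          apply Real.log_nonneg
          rw [le_div_iff₀ (by linarith)]
          linarith
        have h12 : (10 ^ 12 * Real.log (((i : ℝ) - 599) / 300)) *
            (10 ^ 12 * Real.log (((i : ℝ) - 300 + 1) / ((i : ℝ) - 300))) ≤ (Lu : ℝ) * (lup (i - 300) : ℝ) :=
          mul_le_mul hL h6 (by positivity) (Nat.cast_nonneg _)
        push_cast
        rw [← mul_div_assoc, le_div_iff₀ (by positivity)]
        nlinarith [h12, hA]
      push_cast
      calc 10 ^ 12 * (((i : ℝ) + 1) / 300 * F (((i : ℝ) + 1) / 300))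
          = 10 ^ 12 * ((i : ℝ) / 300 * F ((i : ℝ) / 300)) +
            10 ^ 12 * (((i : ℝ) + 1) / 300 * F (((i : ℝ) + 1) / 300) - (i : ℝ) / 300 * F ((i : ℝ) / 300)) := by ring
        _ ≤ A * (G : ℝ) + 10 ^ 12 * (A * Real.log (((i : ℝ) - 599) / 300) *
            Real.log (((i : ℝ) - 300 + 1) / ((i : ℝ) - 300))) := by
            gcongr
        _ ≤ A * (G : ℝ) + A * (((Lu * lup (i - 300) : ℕ) : ℝ) / ((10 ^ 12 : ℕ) : ℝ)) := by
            gcongr
        _ ≤ A * (G : ℝ) + A * (((Lu * lup (i - 300) / 10 ^ 12 : ℕ) : ℝ) + 1) := by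
            gcongr
        _ = A * ((G : ℝ) + ((Lu * lup (i - 300) / 10 ^ 12 : ℕ) : ℝ) + 1) := by ring
    · rw [Finset.sum_Ico_succ_top (by omega), mul_add]
      have h2 := NWU_div (1600 * G * lup (1599 - i)) (i * 10 ^ 12) (by positivity)
      have h3 : 10 ^ 12 * NWU_T F i ≤
          A * (((1600 * G * lup (1599 - i) : ℕ) : ℝ) / ((i * 10 ^ 12 : ℕ) : ℝ)) := by
        unfold NWU_T
        have h4 := NWU_logT i (by omega)
        have h4' := NWU_log0 i (by omega)
        have hip : (0 : ℝ) < i := by linarith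
        have h5 : 10 ^ 12 * (16 / 3 * F ((i : ℝ) / 300) * Real.log ((1600 - (i : ℝ)) / (1599 - i))) =
            1600 * (10 ^ 12 * ((i : ℝ) / 300 * F ((i : ℝ) / 300))) *
              (10 ^ 12 * Real.log ((1600 - (i : ℝ)) / (1599 - i))) / (i * 10 ^ 12) := by
          field_simp
          ring
        rw [h5]
        have h6 : 1600 * (10 ^ 12 * ((i : ℝ) / 300 * F ((i : ℝ) / 300))) *
              (10 ^ 12 * Real.log ((1600 - (i : ℝ)) / (1599 - i))) ≤
            1600 * (A * (G : ℝ)) * (lup (1599 - i) : ℝ) := by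
          have h7 : 0 ≤ 10 ^ 12 * Real.log ((1600 - (i : ℝ)) / (1599 - i)) := by positivity
          have h8 : 0 ≤ 1600 * (A * (G : ℝ)) := by positivity
          exact mul_le_mul (by linarith) h4 h7 h8
        have h9 : A * (((1600 * G * lup (1599 - i) : ℕ) : ℝ) / ((i * 10 ^ 12 : ℕ) : ℝ)) =
            1600 * (A * (G : ℝ)) * (lup (1599 - i) : ℝ) / (i * 10 ^ 12) := by
          push_cast
          ring
        rw [h9]
        exact div_le_div_of_nonneg_right h6 (by positivity)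
      push_cast
      calc 10 ^ 12 * ∑ j ∈ Ico 600 i, NWU_T F j + 10 ^ 12 * NWU_T F i
          ≤ A * (acc : ℝ) + A * (((1600 * G * lup (1599 - i) : ℕ) : ℝ) / ((i * 10 ^ 12 : ℕ) : ℝ)) :=
            add_le_add h h3
        _ ≤ A * (acc : ℝ) + A * (((1600 * G * lup (1599 - i) / (i * 10 ^ 12) : ℕ) : ℝ) + 1) := by
            gcongr
        _ = A * ((acc : ℝ) + ((1600 * G * lup (1599 - i) / (i * 10 ^ 12) : ℕ) : ℝ) + 1) := by ring

theorem NWU (h1 : KER_stmt) : NWU_stmt := by
  intro u A F f hu hD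
  have hA : 0 < A := by linarith [hD.A3]
  have h0 := NWU_goW0 hD 300 600 0 le_rfl rfl (by simp)
  have h2 := NWU_goW hu hD 400 900 (lup 300) (10 ^ 12) (goW0 300 600 0) le_rfl rfl
    (by
      have h3 := NWU_lup 300 (by norm_num)
      have h4 : (((900 : ℕ) : ℝ) - 599) / 300 = (((300 : ℕ) : ℝ) + 1) / ((300 : ℕ) : ℝ) := by norm_num
      rw [h4]
      exact h3)
    (by
      have h3 : (((900 : ℕ) : ℝ) / 300) = 3 := by norm_num
      rw [h3, hD.Fs 3 (by norm_num) le_rfl]
      push_cast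
      linarith)
    h0
  have h5 : ((goW 400 900 (lup 300) (10 ^ 12) (goW0 300 600 0) : ℕ) : ℝ) ≤ 2098 * 10 ^ 9 := by
    exact_mod_cast h1.2
  have h6 : 10 ^ 12 * ∑ j ∈ Ico 600 1300, NWU_T F j ≤ A * (2098 * 10 ^ 9) :=
    h2.trans (mul_le_mul_of_nonneg_left h5 hA.le)
  show ∑ i ∈ Ico (600 : ℕ) 1300, NWU_T F i ≤ A * (2098 / 1000)
  linarith

end Pool.Agent.EC
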